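import Pool.Agent.helper80.VQ.SpecFL

/-!
# Row `vq:FLC`: `C¹` dependence of the flow
-/

set_option autoImplicit false

open scoped MatrixGroups ContDiff Topology UpperHalfPlane ComplexConjugate ENNReal
open UpperHalfPlane MeasureTheory Filter Set

namespace Pool.Agent.VQ

open Pool.Agent.RS
open Pool.Agent.VQE (nm)

noncomputable section

/-- the coordinates of `h⁻¹ v` -/
def FLC_dec (h : SL(2, ℝ)) (v : F4) : Fin 3 → ℝ :=
  ![2 * (h.1 1 1 * v 0 - h.1 0 1 * v 2), h.1 1 1 * v 1 - h.1 0 1 * v 3, h.1 0 0 * v 2 - h.1 1 0 * v 0]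

theorem FLC_det (h : SL(2, ℝ)) : h.1 0 0 * h.1 1 1 - h.1 0 1 * h.1 1 0 = 1 := by
  have h1 := h.2
  rw [Matrix.det_fin_two] at h1
  exact h1

theorem FLC_dec_mu (h : SL(2, ℝ)) (x b c : ℝ) : FLC_dec h (mu4 (m4 h) (x / 2) b c) = ![x, b, c] := by
  have h1 := FLC_det h
  have e0 : FLC_dec h (mu4 (m4 h) (x / 2) b c) 0 = x := by
    simp [FLC_dec, mu4, m4]
    linear_combination x * h1
  have e1 : FLC_dec h (mu4 (m4 h) (x / 2) b c) 1 = b := by
    simp [FLC_dec, mu4, m4]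
    linear_combination b * h1
  have e2 : FLC_dec h (mu4 (m4 h) (x / 2) b c) 2 = c := by
    simp [FLC_dec, mu4, m4]
    linear_combination c * h1
  funext i
  fin_cases i
  · exact e0
  · exact e1
  · exact e2

theorem FLC_dec_add (h : SL(2, ℝ)) (u v w : F4) (x b c : ℝ) (i : Fin 3) :
    FLC_dec h (x • u + b • v + c • w) i = FLC_dec h u i * x + FLC_dec h v i * b + FLC_dec h w i * c := by
  fin_cases i <;> simp [FLC_dec] <;> ring

/-- the basis -/
def FLC_bas (g : SL(2, ℝ)) (j : Fin 3) : F4 :=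
  mu4 (m4 g) ((if j = 0 then 1 else 0) / 2) (if j = 1 then 1 else 0) (if j = 2 then 1 else 0)

theorem FLC_bas_eq (g : SL(2, ℝ)) (x b c : ℝ) :
    mu4 (m4 g) (x / 2) b c = x • FLC_bas g 0 + b • FLC_bas g 1 + c • FLC_bas g 2 := by
  funext i
  fin_cases i <;> simp [FLC_bas, mu4, m4] <;> ring

theorem FLC_cap (a b : Fin 2) : Continuous fun g : SL(2, ℝ) => g.1 a b :=
  (continuous_apply_apply a b).comp continuous_subtype_val

theorem FLC_cm4 : Continuous m4 := by
  refine continuous_pi fun i => ?_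
  have h (a b : Fin 2) : Continuous fun g : SL(2, ℝ) => g.1 a b := FLC_cap a b
  fin_cases i
  · exact h 0 0
  · exact h 0 1
  · exact h 1 0
  · exact h 1 1

theorem FLC_cbas (j : Fin 3) : Continuous fun g : SL(2, ℝ) => FLC_bas g j := by
  have h (i : Fin 4) : Continuous fun g : SL(2, ℝ) => m4 g i := (continuous_apply i).comp FLC_cm4
  refine continuous_pi fun i => ?_
  fin_cases i
  · exact ((h 0).mul continuous_const).add ((h 1).mul continuous_const)
  · exact ((h 0).mul continuous_const).sub ((h 1).mul continuous_const)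
  · exact ((h 2).mul continuous_const).add ((h 3).mul continuous_const)
  · exact ((h 2).mul continuous_const).sub ((h 3).mul continuous_const)

theorem FLC_proof (hFLU : FLU_stmt) (hFCV : FCV_stmt) : FLC_stmt := by
  intro Γ e B D hD
  obtain ⟨⟨C, ρ, κ, Φ, hF⟩, -⟩ := hFLU Γ e B D hD
  have hCV := hFCV Γ e C B D ρ κ Φ hD hF
  let w : ℝ → ℝ → SL(2, ℝ) → Fin 3 → Fin 3 → ℝ := fun E t g i j =>
    FLC_dec (D.fl E t g) (fderiv ℝ (Φ t) (m4 g, E) (FLC_bas g j, 0)).1 i
  have hlin : ∀ (E t : ℝ) (g : SL(2, ℝ)) (x b c : ℝ) (i : Fin 3),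
      FLC_dec (D.fl E t g) (fderiv ℝ (Φ t) (m4 g, E) (mu4 (m4 g) (x / 2) b c, 0)).1 i =
        w E t g i 0 * x + w E t g i 1 * b + w E t g i 2 * c := by
    intro E t g x b c i
    have h1 : ((mu4 (m4 g) (x / 2) b c, 0) : F4 × ℝ) = x • ((FLC_bas g 0, 0) : F4 × ℝ) + b • ((FLC_bas g 1, 0) : F4 × ℝ) + c • ((FLC_bas g 2, 0) : F4 × ℝ) := by
      rw [FLC_bas_eq]
      simp
    rw [h1, map_add, map_add, map_smul, map_smul, map_smul]
    simp only [Prod.fst_add, Prod.smul_fst]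
    exact FLC_dec_add _ _ _ _ _ _ _ _
  have hw : ∀ (E x b c : ℝ) (g : SL(2, ℝ)) (X Bq Cq : ℝ → ℝ),
      (∀ t, fderiv ℝ (Φ t) (m4 g, E) (mu4 (m4 g) (x / 2) b c, 0) = (mu4 (m4 (D.fl E t g)) (X t / 2) (Bq t) (Cq t), 0)) →
      ∀ t, w E t g 0 0 * x + w E t g 0 1 * b + w E t g 0 2 * c = X t ∧
        w E t g 1 0 * x + w E t g 1 1 * b + w E t g 1 2 * c = Bq t ∧
        w E t g 2 0 * x + w E t g 2 1 * b + w E t g 2 2 * c = Cq t := by
    intro E x b c g X Bq Cq h t
    refine ⟨?_, ?_, ?_⟩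
    · rw [← hlin, h t, FLC_dec_mu]
      rfl
    · rw [← hlin, h t, FLC_dec_mu]
      rfl
    · rw [← hlin, h t, FLC_dec_mu]
      rfl
  refine ⟨w, ?_, ?_, ?_⟩
  · intro i j
    have c1 : Continuous fun p : ℝ × ℝ × SL(2, ℝ) => (fderiv ℝ (Φ p.2.1) (m4 p.2.2, p.1) (FLC_bas p.2.2 j, 0)).1 := by
      refine continuous_fst.comp ?_
      have c2 : Continuous fun p : ℝ × ℝ × SL(2, ℝ) => fderiv ℝ (Φ p.2.1) (m4 p.2.2, p.1) :=
        hF.flow.dcont.comp ((continuous_fst.comp continuous_snd).prodMk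
          ((FLC_cm4.comp (continuous_snd.comp continuous_snd)).prodMk continuous_fst))
      have c3 : Continuous fun p : ℝ × ℝ × SL(2, ℝ) => ((FLC_bas p.2.2 j, 0) : F4 × ℝ) :=
        ((FLC_cbas j).comp (continuous_snd.comp continuous_snd)).prodMk continuous_const
      exact c2.clm_apply c3
    have c4 : ∀ k : Fin 4, ContinuousOn (fun p : ℝ × ℝ × SL(2, ℝ) => (fderiv ℝ (Φ p.2.1) (m4 p.2.2, p.1) (FLC_bas p.2.2 j, 0)).1 k) {p | |p.1| ≤ e} :=
      fun k => ((continuous_apply k).comp c1).continuousOn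
    have c5 : ∀ a b : Fin 2, ContinuousOn (fun p : ℝ × ℝ × SL(2, ℝ) => (D.fl p.1 p.2.1 p.2.2).1 a b) {p | |p.1| ≤ e} :=
      fun a b => (FLC_cap a b).comp_continuousOn hD.cfl
    fin_cases i
    · exact continuousOn_const.mul (((c5 1 1).mul (c4 0)).sub ((c5 0 1).mul (c4 2)))
    · exact ((c5 1 1).mul (c4 1)).sub ((c5 0 1).mul (c4 3))
    · exact ((c5 0 0).mul (c4 2)).sub ((c5 1 0).mul (c4 0))
  · intro E g hE
    refine ⟨?_, ?_⟩
    · intro i j
      have h0 : Φ 0 = id := funext fun x => hF.flow.zero x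
      have h1 : w E 0 g i j = FLC_dec g (FLC_bas g j) i := by
        show FLC_dec (D.fl E 0 g) (fderiv ℝ (Φ 0) (m4 g, E) (FLC_bas g j, 0)).1 i = _
        rw [h0, fderiv_id, hD.fl0]
        rfl
      rw [h1, FLC_bas, FLC_dec_mu]
      fin_cases i <;> fin_cases j <;> simp
    · intro x b c
      obtain ⟨X, Bq, Cq, -, -, -, hV, hd⟩ := hCV E x b c g hE
      have h1 := hw E x b c g X Bq Cq hd
      have e0 : (fun t => w E t g 0 0 * x + w E t g 0 1 * b + w E t g 0 2 * c) = X := funext fun t => (h1 t).1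
      have e1 : (fun t => w E t g 1 0 * x + w E t g 1 1 * b + w E t g 1 2 * c) = Bq := funext fun t => (h1 t).2.1
      have e2 : (fun t => w E t g 2 0 * x + w E t g 2 1 * b + w E t g 2 2 * c) = Cq := funext fun t => (h1 t).2.2
      rw [e0, e1, e2]
      exact hV
  · intro E t hE γ s x b c hγ
    obtain ⟨X, Bq, Cq, -, -, -, hV, hd⟩ := hCV E x b c (γ s) hE
    obtain ⟨f0, f1, f2⟩ := hw E x b c (γ s) X Bq Cq hd t
    rw [f0, f1, f2]
    have d1 : HasDerivAt (fun r => m4 (γ r)) (mu4 (m4 (γ s)) (x / 2) b c) s := by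
      refine hasDerivAt_pi.2 fun i => ?_
      have k00 := hγ 0 0
      have k01 := hγ 0 1
      have k10 := hγ 1 0
      have k11 := hγ 1 1
      simp only [Matrix.mul_apply, Fin.sum_univ_two, Matrix.of_apply, Matrix.cons_val', Matrix.cons_val_zero, Matrix.cons_val_one, Matrix.cons_val_fin_one] at k00 k01 k10 k11
      fin_cases i
      · exact k00
      · show HasDerivAt (fun r => (γ r).1 0 1) ((γ s).1 0 0 * b - (γ s).1 0 1 * (x / 2)) s
        have : (γ s).1 0 0 * b - (γ s).1 0 1 * (x / 2) = (γ s).1 0 0 * b + (γ s).1 0 1 * -(x / 2) := by ring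
        rw [this]
        exact k01
      · exact k10
      · show HasDerivAt (fun r => (γ r).1 1 1) ((γ s).1 1 0 * b - (γ s).1 1 1 * (x / 2)) s
        have : (γ s).1 1 0 * b - (γ s).1 1 1 * (x / 2) = (γ s).1 1 0 * b + (γ s).1 1 1 * -(x / 2) := by ring
        rw [this]
        exact k11
    have d2 : HasDerivAt (fun r => ((m4 (γ r), E) : F4 × ℝ)) (mu4 (m4 (γ s)) (x / 2) b c, 0) s := d1.prodMk (hasDerivAt_const s E)
    have d3 := ((hF.flow.diff t (m4 (γ s), E)).hasFDerivAt).comp_hasDerivAt s d2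
    rw [hd t] at d3
    have d4 : (Φ t ∘ fun r => ((m4 (γ r), E) : F4 × ℝ)) = fun r => ((m4 (D.fl E t (γ r)), E) : F4 × ℝ) := funext fun r => hF.eq E t (γ r) hE
    rw [d4] at d3
    have d5 : HasDerivAt (fun r => m4 (D.fl E t (γ r))) (mu4 (m4 (D.fl E t (γ s))) (X t / 2) (Bq t) (Cq t)) s := by
      have := (ContinuousLinearMap.fst ℝ F4 ℝ).hasFDerivAt.comp_hasDerivAt s d3
      exact this
    have d6 := hasDerivAt_pi.1 d5
    have k0 := d6 0
    have k1 := d6 1
    have k2 := d6 2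
    have k3 := d6 3
    intro i j
    simp only [Matrix.mul_apply, Fin.sum_univ_two, Matrix.of_apply, Matrix.cons_val', Matrix.cons_val_zero, Matrix.cons_val_one, Matrix.cons_val_fin_one]
    fin_cases i <;> fin_cases j
    · exact k0
    · show HasDerivAt (fun r => (D.fl E t (γ r)).1 0 1) ((D.fl E t (γ s)).1 0 0 * Bq t + (D.fl E t (γ s)).1 0 1 * -(X t / 2)) s
      have : (D.fl E t (γ s)).1 0 0 * Bq t + (D.fl E t (γ s)).1 0 1 * -(X t / 2) = (D.fl E t (γ s)).1 0 0 * Bq t - (D.fl E t (γ s)).1 0 1 * (X t / 2) := by ring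
      rw [this]
      exact k1
    · exact k2
    · show HasDerivAt (fun r => (D.fl E t (γ r)).1 1 1) ((D.fl E t (γ s)).1 1 0 * Bq t + (D.fl E t (γ s)).1 1 1 * -(X t / 2)) s
      have : (D.fl E t (γ s)).1 1 0 * Bq t + (D.fl E t (γ s)).1 1 1 * -(X t / 2) = (D.fl E t (γ s)).1 1 0 * Bq t - (D.fl E t (γ s)).1 1 1 * (X t / 2) := by ring
      rw [this]
      exact k3

end

end Pool.Agent.VQ
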