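import Pool.Agent.helper80.VQ.SpecFL

/-!
# Row `vq:IDG`: existence of the dynamics (general potentials)
-/

set_option autoImplicit false

open scoped MatrixGroups ContDiff Topology UpperHalfPlane ComplexConjugate ENNReal
open UpperHalfPlane MeasureTheory Filter Set

namespace Pool.Agent.VQ

open Pool.Agent.RS
open Pool.Agent.VQE (nm)

noncomputable section

/-- the parameters -/
abbrev IDG_L (e : ℝ) : Type := {p : ℝ × SL(2, ℝ) // |p.1| ≤ e}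

theorem IDG_fcM : FirstCountableTopology (Matrix (Fin 2) (Fin 2) ℝ) :=
  inferInstanceAs (FirstCountableTopology (Fin 2 → Fin 2 → ℝ))

theorem IDG_fcS : FirstCountableTopology SL(2, ℝ) := by
  have := IDG_fcM
  exact Topology.IsInducing.firstCountableTopology (f := fun g : SL(2, ℝ) => g.1) ⟨rfl⟩

variable {e : ℝ}

theorem IDG_fc : FirstCountableTopology (IDG_L e) := by
  have := IDG_fcS
  exact Topology.IsInducing.firstCountableTopology (f := fun g : IDG_L e => g.1) ⟨rfl⟩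

theorem IDG_cont {X : Type} [TopologicalSpace X] (G : IDG_L e → ℝ → X) (H : ℝ → ℝ → SL(2, ℝ) → X)
    (hG : Continuous fun q : IDG_L e × ℝ => G q.1 q.2) (hH : ∀ (E t : ℝ) (g : SL(2, ℝ)) (hE : |E| ≤ e), H E t g = G ⟨(E, g), hE⟩ t) :
    ContinuousOn (fun p : ℝ × ℝ × SL(2, ℝ) => H p.1 p.2.1 p.2.2) {p | |p.1| ≤ e} := by
  rw [continuousOn_iff_continuous_domRestrict]
  have h1 : Continuous fun p : {p : ℝ × ℝ × SL(2, ℝ) | |p.1| ≤ e} => (((⟨(p.1.1, p.1.2.2), p.2⟩ : IDG_L e), p.1.2.1) : IDG_L e × ℝ) := by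
    refine Continuous.prodMk (Continuous.subtype_mk ?_ _) ?_
    · exact (continuous_fst.comp continuous_subtype_val).prodMk (continuous_snd.comp (continuous_snd.comp continuous_subtype_val))
    · exact continuous_fst.comp (continuous_snd.comp continuous_subtype_val)
  have h2 := hG.comp h1
  refine h2.congr fun p => ?_
  exact (hH p.1.1 p.1.2.1 p.1.2.2 p.2).symm

theorem IDG_tr (P Y : Matrix (Fin 2) (Fin 2) ℂ) : Matrix.trace (P * Y⁻¹) =
    (Y.det)⁻¹ * (P 0 0 * Y 1 1 - P 0 1 * Y 1 0 - P 1 0 * Y 0 1 + P 1 1 * Y 0 0) := by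
  rw [Matrix.inv_def, Ring.inverse_eq_inv', Matrix.adjugate_fin_two, Matrix.trace_fin_two]
  simp [Matrix.mul_apply, Fin.sum_univ_two]
  ring

/-- the dynamics -/
def IDG_D (e : ℝ) (U : ℍ → ℝ) (fl : ℝ → ℝ → SL(2, ℝ) → SL(2, ℝ)) (Y P : IDG_L e → ℝ → Matrix (Fin 2) (Fin 2) ℂ) (S : IDG_L e → ℝ → ℝ) (a : IDG_L e → ℝ → ℂ) : Dyn where
  U := U
  fl := fun E t g => if |E| ≤ e then fl E t g else g
  Y := fun E t g => if h : |E| ≤ e then Y ⟨(E, g), h⟩ t else 1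
  P := fun E t g => if h : |E| ≤ e then P ⟨(E, g), h⟩ t else Complex.I • 1
  S := fun E t g => if h : |E| ≤ e then S ⟨(E, g), h⟩ t else 0
  a := fun E t g => if h : |E| ≤ e then a ⟨(E, g), h⟩ t else 1

theorem IDG_ok (Γ : Subgroup SL(2, ℝ)) (B : ℕ → ℝ) (U : ℍ → ℝ) (hU : Pg Γ e B U) (fl : ℝ → ℝ → SL(2, ℝ) → SL(2, ℝ))
    (Y P : IDG_L e → ℝ → Matrix (Fin 2) (Fin 2) ℂ) (S : IDG_L e → ℝ → ℝ) (a : IDG_L e → ℝ → ℂ)
    (hcfl : Continuous (fun p : ℝ × ℝ × SL(2, ℝ) => fl p.1 p.2.1 p.2.2)) (hfl0 : ∀ E g, fl E 0 g = g)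
    (hdfl : ∀ E t g, |E| ≤ e → ∀ i j, HasDerivAt (fun s => (fl E s g).1 i j) (((fl E t g).1 * XX U E (fl E t g)) i j) t)
    (h0 : ∀ p, Y p 0 = 1 ∧ P p 0 = Complex.I • 1)
    (hdY : ∀ p t i j, HasDerivAt (fun s => Y p s i j) ((P p t + ((kap U p.1.1 (fl p.1.1 t p.1.2) : ℝ) : ℂ) • (JJ * Y p t)) i j) t)
    (hdP : ∀ p t i j, HasDerivAt (fun s => P p s i j) ((KK U p.1.1 (fl p.1.1 t p.1.2) * Y p t + ((kap U p.1.1 (fl p.1.1 t p.1.2) : ℝ) : ℂ) • (JJ * P p t)) i j) t)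
    (hcY : ∀ i j, Continuous (fun q : IDG_L e × ℝ => Y q.1 q.2 i j)) (hcP : ∀ i j, Continuous (fun q : IDG_L e × ℝ => P q.1 q.2 i j))
    (hS0 : ∀ p, S p 0 = 0) (hdS : ∀ p t, HasDerivAt (S p) ((rho U p.1.1 (fl p.1.1 t p.1.2) ^ 2 + U (fl p.1.1 t p.1.2 • I)) / 2) t)
    (hcS : Continuous (fun q : IDG_L e × ℝ => S q.1 q.2)) (ha0 : ∀ p, a p 0 = 1)
    (hda : ∀ p t, HasDerivAt (a p) (-(1 / 2) * Matrix.trace (P p t * (Y p t)⁻¹) * a p t) t) (hca : Continuous (fun q : IDG_L e × ℝ => a q.1 q.2)) :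
    OKG Γ e B (IDG_D e U fl Y P S a) := by
  have dfl : ∀ E t g, |E| ≤ e → (IDG_D e U fl Y P S a).fl E t g = fl E t g := fun E t g hE => if_pos hE
  have dY : ∀ (E t : ℝ) (g : SL(2, ℝ)) (hE : |E| ≤ e), (IDG_D e U fl Y P S a).Y E t g = Y ⟨(E, g), hE⟩ t := fun E t g hE => dif_pos hE
  have dP : ∀ (E t : ℝ) (g : SL(2, ℝ)) (hE : |E| ≤ e), (IDG_D e U fl Y P S a).P E t g = P ⟨(E, g), hE⟩ t := fun E t g hE => dif_pos hE
  have dS : ∀ (E t : ℝ) (g : SL(2, ℝ)) (hE : |E| ≤ e), (IDG_D e U fl Y P S a).S E t g = S ⟨(E, g), hE⟩ t := fun E t g hE => dif_pos hE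
  have da : ∀ (E t : ℝ) (g : SL(2, ℝ)) (hE : |E| ≤ e), (IDG_D e U fl Y P S a).a E t g = a ⟨(E, g), hE⟩ t := fun E t g hE => dif_pos hE
  exact
    { pot := hU
      fl0 := by
        intro E g
        by_cases hE : |E| ≤ e
        · rw [dfl E 0 g hE, hfl0]
        · exact if_neg hE
      out := by
        intro E t g hE
        have hE' : ¬ |E| ≤ e := not_le.2 hE
        exact ⟨if_neg hE', dif_neg hE', dif_neg hE', dif_neg hE', dif_neg hE'⟩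
      dfl := by
        intro E t g hE i j
        have h1 : (fun s => ((IDG_D e U fl Y P S a).fl E s g).1 i j) = fun s => (fl E s g).1 i j := funext fun s => by rw [dfl E s g hE]
        rw [h1, dfl E t g hE]
        exact hdfl E t g hE i j
      cfl := hcfl.continuousOn.congr fun p hp => dfl p.1 p.2.1 p.2.2 hp
      Y0 := by
        intro E g
        by_cases hE : |E| ≤ e
        · rw [dY E 0 g hE]
          exact (h0 _).1
        · exact dif_neg hE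
      P0 := by
        intro E g
        by_cases hE : |E| ≤ e
        · rw [dP E 0 g hE]
          exact (h0 _).2
        · exact dif_neg hE
      S0 := by
        intro E g
        by_cases hE : |E| ≤ e
        · rw [dS E 0 g hE]
          exact hS0 _
        · exact dif_neg hE
      a0 := by
        intro E g
        by_cases hE : |E| ≤ e
        · rw [da E 0 g hE]
          exact ha0 _
        · exact dif_neg hE
      dY := by
        intro E t g hE i j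
        have h1 : (fun s => (IDG_D e U fl Y P S a).Y E s g i j) = fun s => Y ⟨(E, g), hE⟩ s i j := funext fun s => by rw [dY E s g hE]
        rw [h1, dfl E t g hE, dP E t g hE, dY E t g hE]
        exact hdY ⟨(E, g), hE⟩ t i j
      dP := by
        intro E t g hE i j
        have h1 : (fun s => (IDG_D e U fl Y P S a).P E s g i j) = fun s => P ⟨(E, g), hE⟩ s i j := funext fun s => by rw [dP E s g hE]
        rw [h1, dfl E t g hE, dP E t g hE, dY E t g hE]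
        exact hdP ⟨(E, g), hE⟩ t i j
      dS := by
        intro E t g hE
        have h1 : (fun s => (IDG_D e U fl Y P S a).S E s g) = S ⟨(E, g), hE⟩ := funext fun s => dS E s g hE
        rw [h1, dfl E t g hE]
        exact hdS ⟨(E, g), hE⟩ t
      da := by
        intro E t g hE
        have h1 : (fun s => (IDG_D e U fl Y P S a).a E s g) = a ⟨(E, g), hE⟩ := funext fun s => da E s g hE
        rw [h1, da E t g hE, Dyn.M, dP E t g hE, dY E t g hE]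
        exact hda ⟨(E, g), hE⟩ t
      cY := fun i j => IDG_cont (fun p t => Y p t i j) (fun E t g => (IDG_D e U fl Y P S a).Y E t g i j) (hcY i j) fun E t g hE => by rw [dY E t g hE]
      cP := fun i j => IDG_cont (fun p t => P p t i j) (fun E t g => (IDG_D e U fl Y P S a).P E t g i j) (hcP i j) fun E t g hE => by rw [dP E t g hE]
      cS := IDG_cont S (IDG_D e U fl Y P S a).S hcS dS
      ca := IDG_cont a (IDG_D e U fl Y P S a).a hca da }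

theorem IDG_cm (Y P : IDG_L e → ℝ → Matrix (Fin 2) (Fin 2) ℂ) (hdet : ∀ p t, (Y p t).det ≠ 0)
    (hcY : ∀ i j, Continuous (fun q : IDG_L e × ℝ => Y q.1 q.2 i j)) (hcP : ∀ i j, Continuous (fun q : IDG_L e × ℝ => P q.1 q.2 i j)) :
    Continuous fun q : IDG_L e × ℝ => (-(1 / 2) * Matrix.trace (P q.1 q.2 * (Y q.1 q.2)⁻¹) : ℂ) := by
  have e : (fun q : IDG_L e × ℝ => (-(1 / 2) * Matrix.trace (P q.1 q.2 * (Y q.1 q.2)⁻¹) : ℂ)) = fun q : IDG_L e × ℝ =>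
      -(1 / 2) * ((Y q.1 q.2 0 0 * Y q.1 q.2 1 1 - Y q.1 q.2 0 1 * Y q.1 q.2 1 0)⁻¹ *
        (P q.1 q.2 0 0 * Y q.1 q.2 1 1 - P q.1 q.2 0 1 * Y q.1 q.2 1 0 - P q.1 q.2 1 0 * Y q.1 q.2 0 1 + P q.1 q.2 1 1 * Y q.1 q.2 0 0)) :=
    funext fun q => by rw [IDG_tr, Matrix.det_fin_two]
  rw [e]
  refine continuous_const.mul (Continuous.mul (Continuous.inv₀ ?_ ?_) ?_)
  · exact ((hcY 0 0).mul (hcY 1 1)).sub ((hcY 0 1).mul (hcY 1 0))
  · intro q
    have := hdet q.1 q.2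
    rwa [Matrix.det_fin_two] at this
  · exact ((((hcP 0 0).mul (hcY 1 1)).sub ((hcP 0 1).mul (hcY 1 0))).sub ((hcP 1 0).mul (hcY 0 1))).add ((hcP 1 1).mul (hcY 0 0))

theorem IDG_cfl (fl : ℝ → ℝ → SL(2, ℝ) → SL(2, ℝ)) (hcfl : Continuous (fun p : ℝ × ℝ × SL(2, ℝ) => fl p.1 p.2.1 p.2.2)) :
    Continuous fun q : IDG_L e × ℝ => fl q.1.1.1 q.2 q.1.1.2 :=
  hcfl.comp ((continuous_fst.comp (continuous_subtype_val.comp continuous_fst)).prodMk
    (continuous_snd.prodMk (continuous_snd.comp (continuous_subtype_val.comp continuous_fst))))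

theorem IDG_cEf (fl : ℝ → ℝ → SL(2, ℝ) → SL(2, ℝ)) (hcfl : Continuous (fun p : ℝ × ℝ × SL(2, ℝ) => fl p.1 p.2.1 p.2.2)) :
    Continuous fun q : IDG_L e × ℝ => ((q.1.1.1, fl q.1.1.1 q.2 q.1.1.2) : ℝ × SL(2, ℝ)) :=
  (continuous_fst.comp (continuous_subtype_val.comp continuous_fst)).prodMk (IDG_cfl fl hcfl)

theorem IDG_ck (U : ℍ → ℝ) (fl : ℝ → ℝ → SL(2, ℝ) → SL(2, ℝ))
    (hcfl : Continuous (fun p : ℝ × ℝ × SL(2, ℝ) => fl p.1 p.2.1 p.2.2)) (ckap : ContinuousOn (fun p : ℝ × SL(2, ℝ) => kap U p.1 p.2) {p | |p.1| ≤ e}) :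
    Continuous fun q : IDG_L e × ℝ => kap U q.1.1.1 (fl q.1.1.1 q.2 q.1.1.2) := by
  have h := ckap.comp_continuous (IDG_cEf (e := e) fl hcfl) (fun q => q.1.2)
  exact h

theorem IDG_cr (U : ℍ → ℝ) (fl : ℝ → ℝ → SL(2, ℝ) → SL(2, ℝ))
    (hcfl : Continuous (fun p : ℝ × ℝ × SL(2, ℝ) => fl p.1 p.2.1 p.2.2)) (crho : Continuous (fun p : ℝ × SL(2, ℝ) => rho U p.1 p.2)) :
    Continuous fun q : IDG_L e × ℝ => rho U q.1.1.1 (fl q.1.1.1 q.2 q.1.1.2) := by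
  have h := crho.comp (IDG_cEf (e := e) fl hcfl)
  exact h

theorem IDG_cKK (U : ℍ → ℝ) (fl : ℝ → ℝ → SL(2, ℝ) → SL(2, ℝ))
    (hcfl : Continuous (fun p : ℝ × ℝ × SL(2, ℝ) => fl p.1 p.2.1 p.2.2)) (crho : Continuous (fun p : ℝ × SL(2, ℝ) => rho U p.1 p.2))
    (chess : ∀ i j, Continuous fun g => hess U g i j) (i j : Fin 2) : Continuous fun q : IDG_L e × ℝ => KK U q.1.1.1 (fl q.1.1.1 q.2 q.1.1.2) i j := by
  have h1 : Continuous fun q : IDG_L e × ℝ => hess U (fl q.1.1.1 q.2 q.1.1.2) i j := (chess i j).comp (IDG_cfl fl hcfl)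
  have cr := IDG_cr (e := e) U fl hcfl crho
  by_cases h : i = 1 ∧ j = 1
  · have e : (fun q : IDG_L e × ℝ => KK U q.1.1.1 (fl q.1.1.1 q.2 q.1.1.2) i j) =
        fun q => ((hess U (fl q.1.1.1 q.2 q.1.1.2) i j / 2 + rho U q.1.1.1 (fl q.1.1.1 q.2 q.1.1.2) ^ 2 : ℝ) : ℂ) :=
      funext fun q => by rw [KK, if_pos h]
    rw [e]
    exact Complex.continuous_ofReal.comp ((h1.div_const 2).add (cr.pow 2))
  · have e : (fun q : IDG_L e × ℝ => KK U q.1.1.1 (fl q.1.1.1 q.2 q.1.1.2) i j) =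
        fun q => ((hess U (fl q.1.1.1 q.2 q.1.1.2) i j / 2 + 0 : ℝ) : ℂ) :=
      funext fun q => by rw [KK, if_neg h]
    rw [e]
    exact Complex.continuous_ofReal.comp ((h1.div_const 2).add continuous_const)

theorem IDG_cs (U : ℍ → ℝ) (fl : ℝ → ℝ → SL(2, ℝ) → SL(2, ℝ))
    (hcfl : Continuous (fun p : ℝ × ℝ × SL(2, ℝ) => fl p.1 p.2.1 p.2.2)) (crho : Continuous (fun p : ℝ × SL(2, ℝ) => rho U p.1 p.2))
    (hrk : ∀ (E : ℝ) (g : SL(2, ℝ)), |E| ≤ e → rho U E g ^ 2 = U (g • I) + 2 * E) :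
    Continuous fun q : IDG_L e × ℝ => (rho U q.1.1.1 (fl q.1.1.1 q.2 q.1.1.2) ^ 2 + U (fl q.1.1.1 q.2 q.1.1.2 • I)) / 2 := by
  have cr := IDG_cr (e := e) U fl hcfl crho
  have h0 : Continuous fun q : IDG_L e × ℝ => q.1.1.1 := continuous_fst.comp (continuous_subtype_val.comp continuous_fst)
  have h1 : Continuous fun q : IDG_L e × ℝ => rho U q.1.1.1 (fl q.1.1.1 q.2 q.1.1.2) ^ 2 - q.1.1.1 := (cr.pow 2).sub h0
  have e : (fun q : IDG_L e × ℝ => (rho U q.1.1.1 (fl q.1.1.1 q.2 q.1.1.2) ^ 2 + U (fl q.1.1.1 q.2 q.1.1.2 • I)) / 2) =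
      fun q : IDG_L e × ℝ => rho U q.1.1.1 (fl q.1.1.1 q.2 q.1.1.2) ^ 2 - q.1.1.1 := by
    funext q
    have h2 := hrk q.1.1.1 (fl q.1.1.1 q.2 q.1.1.2) q.1.2
    rw [h2]
    ring
  rw [e]
  exact h1

theorem IDG_KK (U : ℍ → ℝ) (E : ℝ) (g : SL(2, ℝ)) (h : hess U g 0 1 = hess U g 1 0) : KK U E g 0 1 = KK U E g 1 0 := by
  simp [KK, h]

theorem IDG_proof (hEXT : EXT_stmt) (hFX4 : FX4_stmt) (hYPE : YPE_stmt) (hDTN : DTN_stmt) (hSAE : SAE_stmt) (hVUG : VUG_stmt) : IDG_stmt := by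
  intro Γ e B U hU
  obtain ⟨C, ρ, κ, hEx⟩ := hEXT Γ e B U hU
  obtain ⟨Φ, fl, hFw, hcfl, hfl0, hdfl⟩ := hFX4 e C U ρ κ hEx
  have hV := hVUG Γ e B U hU
  have hbd := hV.1
  have hrk := hV.2.1
  have chess := hV.2.2.1.2.2.1
  have crho := hV.2.2.1.2.2.2.1
  have ckap := hV.2.2.1.2.2.2.2
  have := IDG_fc (e := e)
  have ck := IDG_ck U fl hcfl ckap
  have cK := IDG_cKK (e := e) U fl hcfl crho chess
  have cs := IDG_cs U fl hcfl crho fun E g hE => (hrk E g hE).2.1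
  obtain ⟨Y, P, h0, hdY, hdP, hcY, hcP⟩ := hYPE (IDG_L e) (fun p t => kap U p.1.1 (fl p.1.1 t p.1.2)) (fun p t => KK U p.1.1 (fl p.1.1 t p.1.2)) ck cK
  have hdet : ∀ p t, (Y p t).det ≠ 0 := fun p => hDTN (fun t => kap U p.1.1 (fl p.1.1 t p.1.2)) (fun t => KK U p.1.1 (fl p.1.1 t p.1.2)) (Y p) (P p)
    (fun t => IDG_KK U _ _ (hbd (fl p.1.1 t p.1.2)).2.2.2.2.2) (fun t i j => Complex.ofReal_im _) (h0 p).1 (h0 p).2 (hdY p) (hdP p)
  obtain ⟨⟨S, hS0, hdS, hcS⟩, ⟨a, ha0, hda, hca⟩⟩ := hSAE (IDG_L e) (fun p t => (rho U p.1.1 (fl p.1.1 t p.1.2) ^ 2 + U (fl p.1.1 t p.1.2 • I)) / 2)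
    (fun p t => (-(1 / 2) * Matrix.trace (P p t * (Y p t)⁻¹) : ℂ)) cs (IDG_cm Y P hdet hcY hcP)
  exact ⟨IDG_D e U fl Y P S a, rfl, IDG_ok Γ B U hU fl Y P S a hcfl hfl0 hdfl h0 hdY hdP hcY hcP hS0 hdS hcS ha0 hda hca⟩

end

end Pool.Agent.VQ
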