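import Pool.Agent.helper80.VQ.SpecFL

/-!
# Row `vq:IDY`: existence of the dynamics
-/

set_option autoImplicit false

open scoped MatrixGroups ContDiff Topology UpperHalfPlane ComplexConjugate ENNReal
open UpperHalfPlane MeasureTheory Filter Set

namespace Pool.Agent.VQ

theorem IDY_proof (hIDG : IDG_stmt) (hPGV : PGV_stmt) : IDY_stmt := by
  intro Γ _
  refine ⟨1 / 10, by norm_num, fun B U hU => ?_⟩
  obtain ⟨D, hD, hOK⟩ := hIDG Γ (1 / 8) (Bx B) U (hPGV.1 Γ (1 / 10) B U hU le_rfl)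
  refine ⟨D, hD, hPGV.2.2 Γ (1 / 10) B D ?_ hOK⟩
  rw [hD]
  exact hU

end Pool.Agent.VQ
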