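import Pool.Agent.helper74.VQ.SpecC

/-!
# Project VQ, row VFS: Schur bound for the Gram kernel
-/

set_option autoImplicit false

open scoped MatrixGroups ContDiff Topology UpperHalfPlane ComplexConjugate ENNReal
open UpperHalfPlane MeasureTheory Filter Set

namespace Pool.Agent.VQ

open Pool.Agent.RS

noncomputable section

theorem VFS_GW (R : ℝ) : MeasurableSet (GW 2 R) := MeasurableSet.univ.prod measurableSet_Icc

/-- the measure theoretic part -/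
theorem VFS_meas {X : Type} [MeasurableSpace X] (μ : Measure X) (G N D : Set X) (hG : MeasurableSet G) (F : X → ℝ≥0∞) (a b : ℝ≥0∞)
    (h1 : ∀ q ∈ G, F q ≤ a) (h2 : ∀ q ∈ G, F q ≠ 0 → q ∈ D) (h3 : ∀ q ∈ G, q ∉ N → F q ≤ b) :
    ∫⁻ q in G, F q ∂μ ≤ a * μ N + b * μ D := by
  have hle : ∀ q ∈ G, F q ≤ (toMeasurable μ N).indicator (fun _ => a) q + (toMeasurable μ D).indicator (fun _ => b) q := by
    intro q hq
    by_cases hN : q ∈ N
    · rw [indicator_of_mem (subset_toMeasurable μ N hN)]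
      exact (h1 q hq).trans le_self_add
    · by_cases h0 : F q = 0
      · rw [h0]
        exact bot_le
      · rw [indicator_of_mem (subset_toMeasurable μ D (h2 q hq h0))]
        exact (h3 q hq hN).trans le_add_self
  calc ∫⁻ q in G, F q ∂μ ≤ ∫⁻ q in G, ((toMeasurable μ N).indicator (fun _ => a) q + (toMeasurable μ D).indicator (fun _ => b) q) ∂μ :=
        setLIntegral_mono' hG hle
    _ ≤ ∫⁻ q, ((toMeasurable μ N).indicator (fun _ => a) q + (toMeasurable μ D).indicator (fun _ => b) q) ∂μ :=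
        setLIntegral_le_lintegral _ _
    _ = a * μ N + b * μ D := by
        rw [lintegral_add_left (measurable_const.indicator (measurableSet_toMeasurable μ N)),
          lintegral_indicator_const (measurableSet_toMeasurable μ N), lintegral_indicator_const (measurableSet_toMeasurable μ D),
          measure_toMeasurable, measure_toMeasurable]

theorem VFS_half (hVOV : VOV_stmt) (hVNV : VNV_stmt) (hVUB : VUB_stmt) :
    ∃ C : ℝ, 1 ≤ C ∧ ∀ η : ℝ, 0 < η → C * η ≤ 1 → ∃ (K : ℕ) (R0 : ℝ), 1 ≤ R0 ∧ ∀ (R δ m m' t t' : ℝ) (Γ : Subgroup SL(2, ℝ)) (B : ℕ → ℝ) (D : Dyn) (f f' : SL(2, ℝ) × ℝ → ℂ → ℂ), R0 ≤ R → OKD Γ δ B D → δ ≤ 1 / 10 → 0 ≤ m → 0 ≤ m' → Fa Γ D K η m R t f → Fa Γ D K η m' R t' f' →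
    (∀ p ∈ GW 2 R, ∫⁻ q in GW 2 R, ‖∫ z : ℍ, pF D t f p z * conj (pF D t' f' q z)‖ₑ ∂mP ≤ ENNReal.ofReal (m * m' * R ^ (-3 + C * η))) := by
  obtain ⟨CV, hCV, hV⟩ := hVOV
  obtain ⟨CN, hCN, hN⟩ := hVNV
  refine ⟨4 + 4 * CV, by linarith, fun η hη hCη => ?_⟩
  have hCη1 : CV * η ≤ 1 / 4 := by nlinarith
  obtain ⟨K, R1, hR1, hK⟩ := hV 4 η hη (by linarith)
  refine ⟨K, max R1 (max 65536 ((2 * CN) ^ (1 / η))), le_trans hR1 (le_max_left _ _), ?_⟩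
  intro R δ m m' t t' Γ B D f f' hR hD hδ hm hm' hf hf' p hp
  have hRR1 : R1 ≤ R := (le_max_left _ _).trans hR
  have hR65 : 65536 ≤ R := (le_max_left _ _).trans ((le_max_right _ _).trans hR)
  have hRN : (2 * CN) ^ (1 / η) ≤ R := (le_max_right _ _).trans ((le_max_right _ _).trans hR)
  have hR0 : 0 < R := by linarith
  have hR1' : 1 ≤ R := by linarith
  have h2CN : 2 * CN ≤ R ^ η := by
    have h1 := Real.rpow_le_rpow (by positivity) hRN hη.le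
    rwa [← Real.rpow_mul (by positivity), one_div, inv_mul_cancel₀ hη.ne', Real.rpow_one] at h1
  have hq : R ^ (-(1 / 4) : ℝ) ≤ 1 / 16 := by
    have h1 : (65536 : ℝ) ^ (1 / 4 : ℝ) = 16 := by
      rw [show (65536 : ℝ) = (16 : ℝ) ^ (4 : ℝ) by norm_num, ← Real.rpow_mul (by norm_num)]
      norm_num
    have h2 : (16 : ℝ) ≤ R ^ (1 / 4 : ℝ) := by
      rw [← h1]
      exact Real.rpow_le_rpow (by norm_num) hR65 (by norm_num)
    rw [Real.rpow_neg hR0.le]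
    rw [show (1 / 16 : ℝ) = (16 : ℝ)⁻¹ by norm_num]
    exact inv_anti₀ (by norm_num) h2
  have hwin : 2 * R ^ (-(1 / 4) : ℝ) ≤ 1 / 8 := by linarith
  have hE : ∀ q ∈ GW 2 R, |q.2| ≤ 1 / 8 := by
    intro q hq'
    have h1 : q.2 ∈ Wi 2 R := hq'.2
    unfold Wi at h1
    rw [abs_le]
    constructor <;> linarith [h1.1, h1.2]
  have hrho : ∀ (q : SL(2, ℝ) × ℝ) (g : SL(2, ℝ)), q ∈ GW 2 R → 4 / 5 ≤ rho D.U q.2 g ∧ rho D.U q.2 g ≤ 6 / 5 := by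
    intro q g hq'
    obtain ⟨-, -, h3, -⟩ := hVUB Γ δ B D.U hD.pot hδ
    obtain ⟨h4, h5, -⟩ := h3 q.2 g (hE q hq')
    exact ⟨h4, h5⟩
  set s : ℝ := R ^ (-(1 / 2) + CV * η) with hs
  have hs0 : 0 < s := Real.rpow_pos_of_pos hR0 _
  have hs1 : s ≤ 1 / 4 := by
    have h1 : s ≤ R ^ (-(1 / 4) : ℝ) := by
      rw [hs]
      exact Real.rpow_le_rpow_of_exponent_le hR1' (by linarith)
    linarith
  set h : SL(2, ℝ) := D.fl p.2 t p.1 with hh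
  set ρ1 : ℝ := rho D.U p.2 h with hρ1
  obtain ⟨r1, r2⟩ := hrho p h hp
  obtain ⟨n1, -, n3⟩ := hN Γ δ B D hD hδ R hwin hR1' h ρ1 t' s hs0 hs1 (by linarith) (by linarith)
  have hmm : 0 ≤ m * m' := mul_nonneg hm hm'
  have hov : ∀ q ∈ GW 2 R,
      ‖∫ z : ℍ, pF D t f p z * conj (pF D t' f' q z)‖ ≤ m * m' * R ^ (-1 + 3 * η) ∧
      ((∫ z : ℍ, pF D t f p z * conj (pF D t' f' q z)) ≠ 0 → dist (h • I : ℍ) (D.fl q.2 t' q.1 • I) ≤ 1) ∧
      (¬(h⁻¹ * D.fl q.2 t' q.1 ∈ Bo s ∧ |ρ1 - rho D.U q.2 (D.fl q.2 t' q.1)| < s) →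
        ‖∫ z : ℍ, pF D t f p z * conj (pF D t' f' q z)‖ ≤ m * m' * R ^ (-4 : ℝ)) := by
    intro q hq'
    obtain ⟨q1, q2⟩ := hrho q (D.fl q.2 t' q.1) hq'
    exact hK R ρ1 (rho D.U q.2 (D.fl q.2 t' q.1)) m m' (f p) (f' q) h (D.fl q.2 t' q.1) hRR1
      ⟨by linarith, by linarith⟩ ⟨by linarith, by linarith⟩ hm hm' (hf.pk p hp) (hf'.pk q hq')
  have hmain := VFS_meas mP (GW 2 R)
    {q | q ∈ GW 2 R ∧ h⁻¹ * D.fl q.2 t' q.1 ∈ Bo s ∧ |ρ1 - rho D.U q.2 (D.fl q.2 t' q.1)| < s}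
    {q | q ∈ GW 2 R ∧ dist (h • I : ℍ) (D.fl q.2 t' q.1 • I) ≤ 2} (VFS_GW R)
    (fun q => ‖∫ z : ℍ, pF D t f p z * conj (pF D t' f' q z)‖ₑ)
    (ENNReal.ofReal (m * m' * R ^ (-1 + 3 * η))) (ENNReal.ofReal (m * m' * R ^ (-4 : ℝ)))
    (fun q hq' => by
      rw [← ofReal_norm]
      exact ENNReal.ofReal_le_ofReal (hov q hq').1)
    (fun q hq' h0 => by
      refine ⟨hq', ?_⟩
      have h1 := (hov q hq').2.1 fun h2 => h0 (by simp only [h2, enorm_zero])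
      linarith)
    (fun q hq' hn => by
      rw [← ofReal_norm]
      refine ENNReal.ofReal_le_ofReal ((hov q hq').2.2 fun h2 => hn ⟨hq', h2⟩))
  refine hmain.trans ?_
  have e1 : ENNReal.ofReal (m * m' * R ^ (-1 + 3 * η)) * mP {q | q ∈ GW 2 R ∧ h⁻¹ * D.fl q.2 t' q.1 ∈ Bo s ∧ |ρ1 - rho D.U q.2 (D.fl q.2 t' q.1)| < s} ≤
      ENNReal.ofReal (m * m' * R ^ (-1 + 3 * η) * (CN * s ^ 4)) := by
    rw [ENNReal.ofReal_mul (p := m * m' * R ^ (-1 + 3 * η)) (q := CN * s ^ 4) (by positivity)]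
    exact mul_le_mul le_rfl n1 bot_le bot_le
  have e2 : ENNReal.ofReal (m * m' * R ^ (-4 : ℝ)) * mP {q | q ∈ GW 2 R ∧ dist (h • I : ℍ) (D.fl q.2 t' q.1 • I) ≤ 2} ≤
      ENNReal.ofReal (m * m' * R ^ (-4 : ℝ) * CN) := by
    rw [ENNReal.ofReal_mul (p := m * m' * R ^ (-4 : ℝ)) (q := CN) (by positivity)]
    exact mul_le_mul le_rfl n3 bot_le bot_le
  refine (add_le_add e1 e2).trans ?_
  rw [← ENNReal.ofReal_add (by positivity) (by positivity)]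
  apply ENNReal.ofReal_le_ofReal
  have k1 : R ^ (-1 + 3 * η) * s ^ 4 = R ^ (-3 + (3 + 4 * CV) * η) := by
    rw [hs, ← Real.rpow_natCast, ← Real.rpow_mul hR0.le, ← Real.rpow_add hR0]
    congr 1
    push_cast
    ring
  have k2 : R ^ (-4 : ℝ) ≤ R ^ (-3 + (3 + 4 * CV) * η) := by
    refine Real.rpow_le_rpow_of_exponent_le hR1' ?_
    have : 0 ≤ (3 + 4 * CV) * η := by positivity
    linarith
  have k3 : R ^ (-3 + (4 + 4 * CV) * η) = R ^ (-3 + (3 + 4 * CV) * η) * R ^ η := by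
    rw [← Real.rpow_add hR0]
    congr 1
    ring
  have k4 : 0 ≤ R ^ (-3 + (3 + 4 * CV) * η) := (Real.rpow_pos_of_pos hR0 _).le
  have k5 : R ^ (-1 + 3 * η) * (CN * s ^ 4) + R ^ (-4 : ℝ) * CN ≤ R ^ (-3 + (4 + 4 * CV) * η) := by
    rw [k3]
    have e3 : R ^ (-1 + 3 * η) * (CN * s ^ 4) = R ^ (-3 + (3 + 4 * CV) * η) * CN := by
      rw [← k1]
      ring
    rw [e3]
    have e4 : R ^ (-4 : ℝ) * CN ≤ R ^ (-3 + (3 + 4 * CV) * η) * CN := mul_le_mul_of_nonneg_right k2 (by linarith)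
    have e5 : R ^ (-3 + (3 + 4 * CV) * η) * (2 * CN) ≤ R ^ (-3 + (3 + 4 * CV) * η) * R ^ η := mul_le_mul_of_nonneg_left h2CN k4
    linarith
  calc m * m' * R ^ (-1 + 3 * η) * (CN * s ^ 4) + m * m' * R ^ (-4 : ℝ) * CN
      = m * m' * (R ^ (-1 + 3 * η) * (CN * s ^ 4) + R ^ (-4 : ℝ) * CN) := by ring
    _ ≤ m * m' * R ^ (-3 + (4 + 4 * CV) * η) := mul_le_mul_of_nonneg_left k5 hmm

theorem VFS_proof (hVOV : VOV_stmt) (hVNV : VNV_stmt) (hVUB : VUB_stmt) : VFS_stmt := by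
  obtain ⟨C, hC, h⟩ := VFS_half hVOV hVNV hVUB
  refine ⟨C, hC, fun η hη hCη => ?_⟩
  obtain ⟨K, R0, hR0, hK⟩ := h η hη hCη
  refine ⟨K, R0, hR0, ?_⟩
  intro R δ m m' t t' Γ B D f f' hR hD hδ hm hm' hf hf'
  refine ⟨hK R δ m m' t t' Γ B D f f' hR hD hδ hm hm' hf hf', fun q hq => ?_⟩
  have h1 := hK R δ m' m t' t Γ B D f' f hR hD hδ hm' hm hf' hf q hq
  have h2 : ∀ p : SL(2, ℝ) × ℝ, ‖∫ z : ℍ, pF D t f p z * conj (pF D t' f' q z)‖ₑ =
      ‖∫ z : ℍ, pF D t' f' q z * conj (pF D t f p z)‖ₑ := by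
    intro p
    have h3 : (∫ z : ℍ, pF D t f p z * conj (pF D t' f' q z)) = conj (∫ z : ℍ, pF D t' f' q z * conj (pF D t f p z)) := by
      rw [← integral_conj]
      refine integral_congr_ae (Filter.Eventually.of_forall fun z => ?_)
      simp only [map_mul, Complex.conj_conj]
      ring
    rw [h3, ← ofReal_norm, ← ofReal_norm, RCLike.norm_conj]
  simp only [h2]
  rw [mul_comm m m']
  exact h1

end

end Pool.Agent.VQ
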